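import Pool.Agent.Y773.D4.Def
import Pool.Agent.Y773.IQ.Ray

/-! # Project D4, job TWA (helper3 for helper773): the primitive character inducing `φ · χ∘Nm` -/

set_option autoImplicit false

open NumberField

namespace Pool.Agent.Y3.D4

open Pool.Agent.Y773.D4
open Pool.Agent.Y767 (Mq Mq_cop Mq_ne_bot)

/-- a nowhere vanishing character on the monoid of the ideals prime to `𝔮` -/
noncomputable def toMq {K : Type} [Field K] [NumberField K] {𝔮 : Ideal (𝓞 K)}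
    (ψ : Ideal (𝓞 K) →*₀ ℂ) (h : ∀ x : Mq 𝔮, ψ (x : Ideal (𝓞 K)) ≠ 0) : Mq 𝔮 →* ℂˣ where
  toFun x := Units.mk0 (ψ (x : Ideal (𝓞 K))) (h x)
  map_one' := by
    ext
    rw [Units.val_mk0, Submonoid.coe_one, map_one, Units.val_one]
  map_mul' x y := by
    ext
    rw [Units.val_mk0, Units.val_mul, Units.val_mk0, Units.val_mk0, Submonoid.coe_mul, map_mul]

/-- the two notions of primitive characters agree for conductors `≠ 1` -/
lemma conv {K : Type} [Field K] [NumberField K] {𝔠 : Ideal (𝓞 K)} {ψ : Ideal (𝓞 K) →*₀ ℂ}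
    (ht : 𝔠 ≠ ⊤) (h : Pool.Agent.Y773.G.IsPrimChar K 𝔠 ψ) : Pool.Agent.Y773.IsPrimChar K 𝔠 ψ where
  ne_bot := h.ne_bot
  supp := h.supp
  ray := fun x hx hT => h.ray x (Pool.Agent.Y773.IQ.ne_zero_of_cop ht
    (Pool.Agent.Y773.IQ.cop_one hx)) hx hT
  prim := h.prim

theorem t_twa : St_TL → St_TWA := by
  intro hTL M _ _ _ σ Nm hR 𝔣 φ hφ q χ hχ hq
  have T := hTL M σ Nm hR
  have hχ1 : chI χ 1 = 1 := by
    have h := T.span q χ hχ 1
    rwa [map_one, Ideal.span_singleton_one, ← Ideal.one_eq_top] at h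
  have hqtop : up M q ≠ ⊤ := by
    intro h
    apply hq
    rw [isUnit_iff_dvd_one, ← T.dvd q 1, h, ← Ideal.one_eq_top]
    exact one_dvd _
  have hqbot : up M q ≠ ⊥ := by
    unfold up
    rw [Ne, Ideal.span_singleton_eq_bot, ← map_zero (algebraMap GaussianInt (𝓞 M))]
    exact fun h => hχ.q0 (hR.inj h)
  have hbot : 𝔣 * up M q ≠ ⊥ := mul_ne_zero hφ.ne_bot hqbot
  have hle1 : 𝔣 * up M q ≤ 𝔣 := fun _ h => (Ideal.mul_le_inf h).1
  have hle2 : 𝔣 * up M q ≤ up M q := fun _ h => (Ideal.mul_le_inf h).2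
  have htop : 𝔣 * up M q ≠ ⊤ := fun h => hqtop (top_le_iff.mp (h ▸ hle2))
  obtain ⟨η, hη⟩ : ∃ η : Ideal (𝓞 M) →*₀ ℂ, ∀ 𝔞, η 𝔞 = φ 𝔞 * chI χ (Nm 𝔞) :=
    ⟨{ toFun := fun 𝔞 => φ 𝔞 * chI χ (Nm 𝔞)
       map_zero' := by rw [map_zero, zero_mul]
       map_one' := by rw [map_one, map_one, hχ1, mul_one]
       map_mul' := fun 𝔞 𝔟 => by
        rw [map_mul, map_mul, T.mul q χ hχ]
        ring }, fun _ => rfl⟩
  have hne : ∀ x : Mq (𝔣 * up M q), η (x : Ideal (𝓞 M)) ≠ 0 := by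
    intro x
    have h1 := Mq_cop x
    rw [hη]
    refine mul_ne_zero ((hφ.supp _ (Mq_ne_bot htop x)).mpr ?_) ((T.ne q χ hχ _).mpr ?_)
    · exact Pool.Agent.Y773.IQ.cop_mono hle1 h1
    · exact Pool.Agent.Y773.IQ.cop_mono hle2 h1
  have hval : ∀ y : Mq (𝔣 * up M q), ((toMq η hne y : ℂˣ) : ℂ) = η (y : Ideal (𝓞 M)) :=
    fun y => rfl
  have hray : ∀ x : 𝓞 M, x - 1 ∈ 𝔣 * up M q → η (Ideal.span {x}) = 1 := by
    intro x hx
    have hx0 : x ≠ 0 := Pool.Agent.Y773.IQ.ne_zero_of_cop htop (Pool.Agent.Y773.IQ.cop_one hx)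
    have h1 : φ (Ideal.span {x}) = 1 := by
      first
        | exact hφ.ray x (hle1 hx) (T.tpos x)
        | exact hφ.ray x hx0 (hle1 hx) (T.tpos x)
    obtain ⟨z, hz⟩ := hR.ex x
    have h2 := hle2 hx
    unfold up at h2
    obtain ⟨c, hc⟩ := Ideal.mem_span_singleton'.mp h2
    have h3 : sg σ x - 1 = sg σ c * algebraMap GaussianInt (𝓞 M) q := by
      have h4 := congrArg (sg σ) hc
      rw [map_mul, map_sub, map_one, hR.fix q] at h4
      exact h4.symm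
    have h5 : q ∣ z - 1 := by
      rw [← T.dvd q (z - 1), Ideal.dvd_iff_le]
      unfold up
      rw [Ideal.span_singleton_le_iff_mem, Ideal.mem_span_singleton']
      refine ⟨c * sg σ x + sg σ c, ?_⟩
      rw [map_sub, map_one, hz]
      linear_combination sg σ x * hc - h3
    rw [hη, h1, hR.nm1 x z hz, T.span q χ hχ, hχ.per z 1 h5, map_one, one_mul]
  rcases Pool.Agent.Y773.IQ.exists_prim hbot htop (toMq η hne) (by
      intro y
      ext
      rw [hval, Pool.Agent.Y773.IQ.pi1_coe, Units.val_one]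
      exact hray y y.2) with h | ⟨𝔠, ψ, h1, h2, h3, h4⟩
  · left
    intro x hx
    have h5 := congrArg (fun u : ℂˣ => (u : ℂ)) (h x hx)
    rw [← hη]
    exact h5
  · right
    refine ⟨𝔠, ψ, h2, ?_, h1, fun 𝔞 h𝔞 => ?_⟩
    · first
        | exact conv h2 (h3 T.tpos)
        | exact h3 T.tpos
    rw [h4 ⟨𝔞, h𝔞⟩, hval, hη]

end Pool.Agent.Y3.D4
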